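import Pool.Agent.H.MP_871f9b_an.M

set_option autoImplicit false

namespace Pool.Agent.Results.MP_871f9b_an.No

open Filter Topology MeasureTheory Set
open scoped ContDiff

theorem result :
    ∃ (V : Set (EuclideanSpace ℝ (Fin 3))) (F : EuclideanSpace ℝ (Fin 3) → ℝ)
      (u f : EuclideanSpace ℝ (Fin 3) → ℂ),
      IsCompact V ∧ IsConnected V ∧ closure (interior V) = V ∧ IsConnected Vᶜ ∧
      ContDiff ℝ ∞ F ∧ V = {x | F x ≤ 0} ∧ frontier V = {x | F x = 0} ∧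
      (∀ x ∈ frontier V, gradient F x ≠ 0) ∧
      (∀ x ∈ closure Vᶜ, ContDiffAt ℝ ∞ u x) ∧
      (∀ x ∈ Vᶜ, Laplacian.laplacian u x + u x = 0) ∧
      ContDiff ℝ ∞ f ∧
      Tendsto (fun x => (‖x‖ : ℂ) * Complex.exp (-(Complex.I * ‖x‖)) * u x - f (‖x‖⁻¹ • x))
        (cocompact (EuclideanSpace ℝ (Fin 3))) (𝓝 0) ∧
      (∃ x ∈ frontier V, u x ≠ 0) ∧
      (∃ x ∈ frontier V, fderiv ℝ u x (gradient F x) ≠ 0) ∧
      IntegrableOn (fun x => ‖u x‖ ^ 2 - ∑ i, ‖fderiv ℝ u x (EuclideanSpace.single i 1)‖ ^ 2) Vᶜ ∧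
      0 < 1 / 2 * ∫ x in Vᶜ, (‖u x‖ ^ 2 - ∑ i, ‖fderiv ℝ u x (EuclideanSpace.single i 1)‖ ^ 2) :=
  Pool.Agent.H.MP_871f9b_an.main

end Pool.Agent.Results.MP_871f9b_an.No
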